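import Pool.Agent.Lib.MP_07717f_lc.Main

/-!
A residually finite quotient of the free group of rank three with co-c.e. word problem that is
isomorphic to no subgroup of the group of computable permutations.
-/

set_option autoImplicit false

namespace Pool.Agent.Results.MP_07717f_lc.ThreeGenerators

theorem computable_inv {σ : Equiv.Perm ℕ} (h : Computable σ) : Computable ⇑σ⁻¹ := by
  have heq : Computable₂ fun a b : ℕ => decide (a = b) := Primrec.eq.decide.to_comp
  have h1 : Computable₂ fun y x : ℕ => decide (σ x = y) :=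
    heq.comp (h.comp Computable.snd) Computable.fst
  refine (Partrec.rfind h1.partrec₂).of_eq_tot fun y => Nat.mem_rfind.2 ⟨by simp, fun {m} hm => ?_⟩
  have : σ m ≠ y := by
    rintro rfl
    simp at hm
  simp [this]

/-- The group of all computable permutations of the natural numbers. -/
def Srec : Subgroup (Equiv.Perm ℕ) where
  carrier := {σ | Computable σ}
  one_mem' := Computable.id
  mul_mem' := fun {a b} ha hb => Computable.comp (f := a) (g := b) ha hb
  inv_mem' := computable_inv

open Pool.Agent.Lib.MP_07717f_lc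

theorem result : ∃ (N : Subgroup (FreeGroup (Fin 3))) (_ : N.Normal),
    REPred (fun w : List (Fin 3 × Bool) => FreeGroup.mk w ∉ N) ∧
    (∀ w : FreeGroup (Fin 3), w ∉ N → ∃ (Q : Type) (_ : Group Q) (_ : Finite Q)
      (r : FreeGroup (Fin 3) →* Q), (∀ x ∈ N, r x = 1) ∧ r w ≠ 1) ∧
    ∀ H : Subgroup Srec, IsEmpty ((FreeGroup (Fin 3) ⧸ N) ≃* H) := by
  have hp : ∀ w, proj w = 1 ↔ w ∈ NN := fun w => proj_eq_one.trans mem_NN.symm
  refine ⟨NN, NN_normal, GG_re.of_eq fun w => not_congr (hp _), fun w hw => ?_,
    fun H => ⟨fun e => GG_not_embed ?_⟩⟩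
  · obtain ⟨K, h1, h2⟩ := GG_rf (proj w) fun h => hw ((hp w).1 h)
    have : K.FiniteIndex := ⟨h1⟩
    refine ⟨GG ⧸ K.normalCore, inferInstance, inferInstance,
      (QuotientGroup.mk' K.normalCore).comp proj, fun x hx => ?_, fun h => h2 ?_⟩
    · rw [MonoidHom.comp_apply, (hp x).2 hx, map_one]
    · exact K.normalCore_le ((QuotientGroup.eq_one_iff _).1 h)
  · exact ⟨Srec.subtype.comp (H.subtype.comp e.toMonoidHom),
      Srec.subtype_injective.comp (H.subtype_injective.comp e.injective), fun g => (e g).1.2⟩

end Pool.Agent.Results.MP_07717f_lc.ThreeGenerators
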